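import Pool.Agent.Q71.KR.Slice

set_option autoImplicit false

open MeasureTheory Set Metric Filter Topology Module
open scoped NNReal ENNReal

namespace Q71.KR

variable {E : Type*} [NormedAddCommGroup E] [NormedSpace ℝ E] [FiniteDimensional ℝ E]
  [MeasurableSpace E] [BorelSpace E]

/-- A set on which a differentiable map has nonzero Jacobian is `H^α`-null if its image is. -/
theorem haus_null_of_image {α : ℝ} (hα : 0 ≤ α) {f : E → E}
    {f' : E → E →L[ℝ] E} {s : Set E} (hf : ∀ x ∈ s, HasFDerivWithinAt f (f' x) s x)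
    (h0 : μH[α] (f '' s) = 0) (hdet : ∀ x ∈ s, (f' x).det ≠ 0) : μH[α] s = 0 := by
  classical
  rcases s.eq_empty_or_nonempty with rfl | hne
  · simp
  have key : ∀ A : E →L[ℝ] E, ∃ r : ℝ≥0, r ≠ 0 ∧ (A.det ≠ 0 → ∀ (u : Set E) (g : E → E),
      ApproximatesLinearOn g A u r → μH[α] (g '' u) = 0 → μH[α] u = 0) := by
    intro A
    by_cases hA : A.det = 0
    · exact ⟨1, one_ne_zero, fun h => absurd hA h⟩
    · set B : E ≃L[ℝ] E := A.toContinuousLinearEquivOfDetNeZero hA with hB
      have hBA : (B : E →L[ℝ] E) = A := rfl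
      by_cases hsub : Subsingleton E
      · refine ⟨1, one_ne_zero, fun _ u g _ hz => ?_⟩
        have : g '' u = u := by
          ext x
          constructor
          · rintro ⟨y, hy, -⟩; rwa [Subsingleton.elim x y]
          · intro hx; exact ⟨x, hx, Subsingleton.elim _ _⟩
        rwa [this] at hz
      · have hne : Nontrivial E := not_subsingleton_iff_nontrivial.1 hsub
        have hN : 0 < ‖(B.symm : E →L[ℝ] E)‖₊ := by
          rw [pos_iff_ne_zero, nnnorm_ne_zero_iff]
          intro h
          obtain ⟨x, hx⟩ := exists_ne (0 : E)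
          apply hx
          have h2 := DFunLike.congr_fun h (B x)
          simpa using h2
        refine ⟨‖(B.symm : E →L[ℝ] E)‖₊⁻¹ / 2, by positivity, fun _ u g hg hz => ?_⟩
        rw [← hBA] at hg
        have hanti := hg.antilipschitz (Or.inr (NNReal.half_lt_self (by positivity)))
        have h1 := hanti.le_hausdorffMeasure_image hα (univ : Set u)
        have h2 : (u.domRestrict g) '' univ = g '' u := by
          rw [image_univ, range_domRestrict]
        rw [h2, hz, mul_zero] at h1
        have h3 : μH[α] (univ : Set u) = μH[α] u := by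
          have := (isometry_subtype_coe (s := u)).hausdorffMeasure_image (d := α) (Or.inl hα)
            (univ : Set u)
          rw [image_univ, Subtype.range_coe] at this
          exact this.symm
        rw [h3] at h1
        exact nonpos_iff_eq_zero.1 h1
  choose r hr0 hr using key
  obtain ⟨t, A, -, hcov, happ, hA⟩ :=
    exists_closed_cover_approximatesLinearOn_of_hasFDerivWithinAt f s f' hf r hr0
  have hnull : ∀ n, μH[α] (s ∩ t n) = 0 := by
    intro n
    obtain ⟨y, hy, hyA⟩ := hA hne n
    refine hr (A n) (by rw [hyA]; exact hdet y hy) _ f (happ n) ?_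
    exact measure_mono_null (image_mono inter_subset_left) h0
  have : s ⊆ ⋃ n, s ∩ t n := by
    rw [← inter_iUnion]
    exact subset_inter subset_rfl hcov
  exact measure_mono_null this (measure_iUnion_null hnull)

theorem null_lipschitz_image (μ : Measure E) [μ.IsAddHaarMeasure] {f : E → E} {K : ℝ≥0}
    {s : Set E} (hf : LipschitzOnWith K f s) (hs : μ s = 0) : μ (f '' s) = 0 := by
  have h1 : (μH[finrank ℝ E] : Measure E) s = 0 :=
    (Measure.absolutelyContinuous_isAddHaarMeasure (μH[finrank ℝ E] : Measure E) μ) hs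
  have h2 : (μH[finrank ℝ E] : Measure E) (f '' s) = 0 := by
    have := hf.hausdorffMeasure_image_le (d := finrank ℝ E) (by positivity)
    rw [h1, mul_zero] at this
    exact nonpos_iff_eq_zero.1 this
  exact (Measure.absolutelyContinuous_isAddHaarMeasure μ (μH[finrank ℝ E] : Measure E)) h2

abbrev EE (n : ℕ) : Type := EuclideanSpace ℝ (Fin n)

/-- a linear isomorphism between `ℝ^(d+1)` and `ℝ^d × ℝ` -/
noncomputable def cc (d : ℕ) : EE (d + 1) ≃L[ℝ] (EE d × ℝ) :=
  ContinuousLinearEquiv.ofFinrankEq (by simp)

theorem null_iff {d : ℕ} (B : Set (EE d × ℝ)) :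
    (volume : Measure (EE (d + 1))) (cc d ⁻¹' B) = 0 ↔ (volume : Measure (EE d × ℝ)) B = 0 := by
  have h1 : ((volume : Measure (EE (d + 1))).map (cc d)).IsAddHaarMeasure :=
    (cc d).isAddHaarMeasure_map volume
  have h2 : (volume : Measure (EE (d + 1))) (cc d ⁻¹' B) =
      (volume : Measure (EE (d + 1))).map (cc d) B := by
    have := (cc d).toHomeomorph.toMeasurableEquiv.map_apply (μ := volume) B
    exact this.symm
  rw [h2]
  have h3 : (volume : Measure (EE d × ℝ)).IsAddHaarMeasure :=
    inferInstanceAs (Measure.IsAddHaarMeasure ((volume : Measure (EE d)).prod (volume : Measure ℝ)))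
  exact ⟨fun h => Measure.absolutelyContinuous_isAddHaarMeasure _ _ h,
    fun h => Measure.absolutelyContinuous_isAddHaarMeasure _ _ h⟩

theorem haus_null {d : ℕ} {α : ℝ} (hα : 0 ≤ α) (B : Set (EE d × ℝ))
    (h : μH[α] (cc d ⁻¹' B) = 0) : μH[α] B = 0 := by
  have h1 := (cc d).lipschitz.hausdorffMeasure_image_le hα (cc d ⁻¹' B)
  rw [h, mul_zero, image_preimage_eq _ (cc d).surjective] at h1
  exact nonpos_iff_eq_zero.1 h1

end Q71.KR
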