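import Pool.Agent.Q71.KR.Pencil

set_option autoImplicit false

open MeasureTheory Set Metric Filter Topology Module
open scoped NNReal ENNReal Pointwise

namespace Q71.KR

variable {d : ℕ}

/-- the cone over the directions of the lines of `Λ` that are values of `P` -/
def cone (Λ : Set (EE (d + 1) × EE (d + 1))) (P : EE d → EE (d + 1) × EE (d + 1)) :
    Set (EE (d + 1)) :=
  {w | ∃ y, P y ∈ Λ ∧ ∃ r ∈ Ioo (0 : ℝ) 1, w = r • (P y).2}

theorem core_vol {K : Set (EE (d + 1))} {Λ : Set (EE (d + 1) × EE (d + 1))}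
    {L : ℝ≥0} {P : EE d → EE (d + 1) × EE (d + 1)} (hP : LipschitzWith L P)
    (hΛ : ∀ p ∈ Λ, 0 < volume {s : ℝ | p.1 + s • p.2 ∈ K}) (hK : volume K = 0) :
    volume (cone Λ P) = 0 := by
  have hX : LipschitzWith (1 * L) fun y => (P y).1 := LipschitzWith.prod_fst.comp hP
  have hε : LipschitzWith (1 * L) fun y => (P y).2 := LipschitzWith.prod_snd.comp hP
  have h1 := slices_vol (X := fun y => (P y).1) (ε := fun y => (P y).2) hK
  have h2 : volume ({y | P y ∈ Λ} ∩ Gd (fun y => (P y).1) fun y => (P y).2) = 0 := by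
    refine measure_mono_null ?_ (ae_iff.1 h1)
    rintro y ⟨hy, hG⟩ hcon
    exact (hΛ _ hy).ne' (hcon hG)
  exact cone_null hX hε {y | P y ∈ Λ} h2

theorem core_haus {K : Set (EE (d + 1))} {Λ : Set (EE (d + 1) × EE (d + 1))}
    {L : ℝ≥0} {P : EE d → EE (d + 1) × EE (d + 1)} (hP : LipschitzWith L P) {σ : ℝ}
    (hσ : 0 < σ)
    (hΛ : ∀ p ∈ Λ, ENNReal.ofReal σ ≤ dimH {s : ℝ | p.1 + s • p.2 ∈ K})
    (hpos : volume (cone Λ P) ≠ 0) : (d : ℝ≥0∞) + ENNReal.ofReal σ ≤ dimH K := by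
  have hX : LipschitzWith (1 * L) fun y => (P y).1 := LipschitzWith.prod_fst.comp hP
  have hε : LipschitzWith (1 * L) fun y => (P y).2 := LipschitzWith.prod_snd.comp hP
  have key : ∀ t : ℝ, 0 < t → t < σ → ENNReal.ofReal (d + t) ≤ dimH K := by
    intro t ht hts
    by_contra hcon
    rw [not_le] at hcon
    have hz : μH[(d : ℝ) + t] K = 0 := by
      have h := hausdorffMeasure_of_dimH_lt (s := K) (d := ((d : ℝ) + t).toNNReal) hcon
      rwa [Real.coe_toNNReal _ (by positivity)] at h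
    have h1 := slices_haus (X := fun y => (P y).1) (ε := fun y => (P y).2) ht hz
    apply hpos
    have h2 : volume ({y | P y ∈ Λ} ∩ Gd (fun y => (P y).1) fun y => (P y).2) = 0 := by
      refine measure_mono_null ?_ (ae_iff.1 h1)
      rintro y ⟨hy, hG⟩ hcon'
      have h3 := hcon' hG
      have h4 : dimH {s : ℝ | (P y).1 + s • (P y).2 ∈ K} ≤ ENNReal.ofReal t := by
        refine dimH_le_of_hausdorffMeasure_ne_top (d := t.toNNReal) ?_
        rw [Real.coe_toNNReal _ ht.le, h3]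
        exact ENNReal.zero_ne_top
      have h5 := (hΛ _ hy).trans h4
      rw [ENNReal.ofReal_le_ofReal_iff ht.le] at h5
      linarith
    exact cone_null hX hε {y | P y ∈ Λ} h2
  rw [← ENNReal.ofReal_natCast, ← ENNReal.ofReal_add (by positivity) hσ.le]
  refine le_of_forall_lt fun c hc => ?_
  have hcf : c ≠ ∞ := ne_top_of_lt hc
  have hc' : c.toReal < d + σ := by
    have := (ENNReal.lt_ofReal_iff_toReal_lt hcf).1 hc
    exact this
  obtain ⟨t, ht1, ht2⟩ := exists_between (show max (σ / 2) (c.toReal - d) < σ from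
    max_lt (by linarith) (by linarith))
  have ht0 : 0 < t := lt_of_lt_of_le (by positivity) ((le_max_left _ _).trans ht1.le)
  refine lt_of_lt_of_le ?_ (key t ht0 ht2)
  rw [ENNReal.lt_ofReal_iff_toReal_lt hcf]
  have := (le_max_right (σ / 2) (c.toReal - d)).trans_lt ht1
  linarith

/-- a set of unit vectors is null for the surface measure if the cone over it is null -/
theorem toSphere_null {A : Set (sphere (0 : EE (d + 1)) 1)}
    (h : volume {w : EE (d + 1) | ∃ ω ∈ A, ∃ r ∈ Ioo (0 : ℝ) 1, w = r • (ω : EE (d + 1))} = 0) :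
    (volume : Measure (EE (d + 1))).toSphere A = 0 := by
  have h1 := (volume : Measure (EE (d + 1))).measurePreserving_homeomorphUnitSphereProd
  have h2 : ((volume : Measure (EE (d + 1))).toSphere.prod
      (Measure.volumeIoiPow (finrank ℝ (EE (d + 1)) - 1))) (A ×ˢ Iio ⟨1, mem_Ioi.2 one_pos⟩) = 0 := by
    rw [← h1.map_eq, (Homeomorph.measurableEmbedding _).map_apply,
      comap_subtype_coe_apply (measurableSet_singleton _).compl]
    have h3 := (volume : Measure (EE (d + 1))).toSphere_apply_aux A ⟨1, mem_Ioi.2 one_pos⟩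
    rw [h3]
    refine measure_mono_null ?_ h
    rintro w ⟨r, hr, _, ⟨ω, hω, rfl⟩, rfl⟩
    exact ⟨ω, hω, r, hr, rfl⟩
  rw [Measure.prod_prod, mul_eq_zero] at h2
  rcases h2 with h2 | h2
  · exact h2
  · exfalso
    rw [Measure.volumeIoiPow_apply_Iio, ENNReal.ofReal_eq_zero] at h2
    have : (0 : ℝ) < (1 : ℝ) ^ (finrank ℝ (EE (d + 1)) - 1 + 1) /
        (((finrank ℝ (EE (d + 1)) - 1 : ℕ) : ℝ) + 1) := by positivity
    exact absurd h2 (not_le.2 this)

/-- The point of `ℝ^(d+1)` with first coordinate `t` and remaining coordinates `y`. -/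
noncomputable def pt (t : ℝ) (y : EE d) : EE (d + 1) :=
  WithLp.toLp 2 (Fin.cons t (WithLp.ofLp y))

lemma pt_add (t t' : ℝ) (y y' : EE d) : pt (t + t') (y + y') = pt t y + pt t' y' := by
  ext i
  refine Fin.cases ?_ (fun j => ?_) i <;> simp [pt]

lemma pt_smul (r t : ℝ) (y : EE d) : pt (r * t) (r • y) = r • pt t y := by
  ext i
  refine Fin.cases ?_ (fun j => ?_) i <;> simp [pt]

noncomputable def ptLin (d : ℕ) : (EE d × ℝ) →ₗ[ℝ] EE (d + 1) where
  toFun q := pt q.2 q.1
  map_add' _ _ := pt_add _ _ _ _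
  map_smul' _ _ := pt_smul _ _ _

lemma ptLin_inj (d : ℕ) : Function.Injective (ptLin d) := by
  rintro ⟨y, t⟩ ⟨y', t'⟩ h
  have h' : pt t y = pt t' y' := h
  refine Prod.ext ?_ ?_
  · ext j
    have := congrArg (fun z : EE (d + 1) => z j.succ) h'
    simpa [pt] using this
  · have := congrArg (fun z : EE (d + 1) => z 0) h'
    simpa [pt] using this

noncomputable def ptE (d : ℕ) : (EE d × ℝ) ≃L[ℝ] EE (d + 1) :=
  (LinearEquiv.ofInjectiveOfFinrankEq (ptLin d) (ptLin_inj d) (by simp)).toContinuousLinearEquiv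

lemma ptE_apply (q : EE d × ℝ) : ptE d q = pt q.2 q.1 := rfl

/-- a set of slopes is null if the cone over it is null -/
theorem slopes_null {V : Set (EE d)}
    (h : volume {w : EE (d + 1) | ∃ v ∈ V, ∃ r ∈ Ioo (0 : ℝ) 1, w = r • pt 1 v} = 0) :
    volume V = 0 := by
  set C : Set (EE (d + 1)) := {w | ∃ v ∈ V, ∃ r ∈ Ioo (0 : ℝ) 1, w = r • pt 1 v} with hC
  have h1 : ((volume : Measure (EE d × ℝ)).map (ptE d)).IsAddHaarMeasure := by
    have h3 : (volume : Measure (EE d × ℝ)).IsAddHaarMeasure :=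
      inferInstanceAs (Measure.IsAddHaarMeasure
        ((volume : Measure (EE d)).prod (volume : Measure ℝ)))
    exact (ptE d).isAddHaarMeasure_map volume
  have h2 : (volume : Measure (EE d × ℝ)) (ptE d ⁻¹' C) = 0 := by
    have this : (volume : Measure (EE d × ℝ)).map (ptE d) C =
        (volume : Measure (EE d × ℝ)) (ptE d ⁻¹' C) :=
      (ptE d).toHomeomorph.toMeasurableEquiv.map_apply (μ := volume) C
    rw [← this]
    exact Measure.absolutelyContinuous_isAddHaarMeasure _ _ h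
  have h3 : ∀ᵐ q ∂((volume : Measure (EE d)).prod (volume : Measure ℝ)), q ∉ ptE d ⁻¹' C :=
    measure_eq_zero_iff_ae_notMem.1 h2
  have h4 : ∀ᵐ q ∂((volume : Measure ℝ).prod (volume : Measure (EE d))),
      (q.2, q.1) ∉ ptE d ⁻¹' C := by
    have := (Measure.measurePreserving_swap (μ := (volume : Measure ℝ))
      (ν := (volume : Measure (EE d)))).quasiMeasurePreserving.ae h3
    exact this
  have h5 := Measure.ae_ae_of_ae_prod h4
  have h6 : ∃ r ∈ Ioo (0 : ℝ) 1, ∀ᵐ y : EE d, (y, r) ∉ ptE d ⁻¹' C := by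
    by_contra hcon
    push Not at hcon
    have h7 : volume (Ioo (0 : ℝ) 1) = 0 :=
      measure_mono_null (fun r hr => (hcon r hr : ¬ _)) (ae_iff.1 h5)
    simp at h7
  obtain ⟨r, hr, hr2⟩ := h6
  have h8 : volume (r • V) = 0 := by
    refine measure_mono_null (t := {y : EE d | ¬ (y, r) ∉ ptE d ⁻¹' C}) ?_ (ae_iff.1 hr2)
    rintro _ ⟨v, hv, rfl⟩
    rw [mem_ofPred_eq, not_not]
    refine ⟨v, hv, r, hr, ?_⟩
    rw [ptE_apply, ← pt_smul, mul_one]
  rw [Measure.addHaar_smul, mul_eq_zero] at h8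
  rcases h8 with h8 | h8
  · exfalso
    rw [ENNReal.ofReal_eq_zero] at h8
    have : 0 < |r ^ finrank ℝ (EE d)| := abs_pos.2 (pow_ne_zero _ hr.1.ne')
    linarith
  · exact h8

/-- one-sided Lipschitz position maps: the lines are the values of one Lipschitz map -/
theorem exists_param {V : Set (EE d)} {a : EE d → EE d} {C : ℝ}
    (ha : ∀ v ∈ V, ∀ w ∈ V, -(C * ‖v - w‖ ^ 2) ≤ inner ℝ (a v - a w) (v - w)) :
    ∃ (L : ℝ≥0) (P : EE d → EE (d + 1) × EE (d + 1)), LipschitzWith L P ∧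
      ∀ v ∈ V, ∃ y, P y = (pt 0 (a v), pt 1 v) := by
  classical
  set F : EE d → EE d := fun v => a v + (C + 1) • v with hF
  have hexp : ∀ v ∈ V, ∀ w ∈ V, ‖v - w‖ ≤ ‖F v - F w‖ := by
    intro v hv w hw
    have h1 : inner ℝ (F v - F w) (v - w) = inner ℝ (a v - a w) (v - w) +
        (C + 1) * ‖v - w‖ ^ 2 := by
      have : F v - F w = (a v - a w) + (C + 1) • (v - w) := by simp only [hF]; module
      rw [this, inner_add_left, real_inner_smul_left, real_inner_self_eq_norm_sq]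
    have h2 : ‖v - w‖ ^ 2 ≤ inner ℝ (F v - F w) (v - w) := by
      rw [h1]; linarith [ha v hv w hw]
    have h3 := real_inner_le_norm (F v - F w) (v - w)
    by_cases h0 : ‖v - w‖ = 0
    · rw [h0]; exact norm_nonneg _
    · have h4 : 0 < ‖v - w‖ := lt_of_le_of_ne (norm_nonneg _) (Ne.symm h0)
      have h5 : ‖v - w‖ * ‖v - w‖ ≤ ‖F v - F w‖ * ‖v - w‖ := by
        rw [← pow_two]; exact h2.trans h3
      exact le_of_mul_le_mul_right h5 h4
  have hinj : InjOn F V := by
    intro v hv w hw hvw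
    have := hexp v hv w hw
    rw [hvw, sub_self, norm_zero] at this
    exact sub_eq_zero.1 (norm_eq_zero.1 (le_antisymm this (norm_nonneg _)))
  set G0 : EE d → EE d := Function.invFunOn F V with hG0
  have hG0F : ∀ v ∈ V, G0 (F v) = v := fun v hv => hinj.leftInvOn_invFunOn hv
  have hL0 : LipschitzOnWith 1 G0 (F '' V) := by
    refine LipschitzOnWith.of_dist_le_mul ?_
    rintro _ ⟨v, hv, rfl⟩ _ ⟨w, hw, rfl⟩
    rw [hG0F v hv, hG0F w hw, NNReal.coe_one, one_mul, dist_eq_norm, dist_eq_norm]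
    exact hexp v hv w hw
  obtain ⟨G, hG, hGeq⟩ := hL0.extend_finite_dimension
  have hGF : ∀ v ∈ V, G (F v) = v := fun v hv => by
    rw [← hGeq (mem_image_of_mem F hv), hG0F v hv]
  set LG : ℝ≥0 := lipschitzExtensionConstant (EE d) * 1
  have e1 : LipschitzWith (1 + ‖(C + 1 : ℝ)‖₊ * LG) fun y => y - (C + 1) • G y :=
    LipschitzWith.id.sub (by
      have := (lipschitzWith_smul (β := EE d) (C + 1 : ℝ)).comp hG
      exact this)
  have e2 : ∀ t : ℝ, LipschitzWith ‖((ptE d : (EE d × ℝ) →L[ℝ] EE (d + 1)))‖₊ fun y : EE d => pt t y := by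
    intro t
    have h1 : LipschitzWith 1 fun y : EE d => (y, t) := LipschitzWith.of_dist_le_mul fun x y => by
      simp [Prod.dist_eq]
    have := (ptE d).lipschitz.comp h1
    rw [mul_one] at this
    exact this
  refine ⟨_, fun y => (pt 0 (y - (C + 1) • G y), pt 1 (G y)),
    (((e2 0).comp e1).prodMk ((e2 1).comp hG)), fun v hv => ⟨F v, ?_⟩⟩
  simp only [hGF v hv]
  congr 2
  simp [hF]

end Q71.KR
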