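import Pool.Agent.Q71.KR.Img

set_option autoImplicit false

open MeasureTheory Set Metric Filter Topology Module
open scoped NNReal ENNReal

namespace Q71.KR

variable {d : ℕ}

/-- the block map `(u, τ) ↦ A u + τ w` -/
noncomputable def blk (A : EE d →L[ℝ] EE (d + 1)) (w : EE (d + 1)) : (EE d × ℝ) →L[ℝ] EE (d + 1) :=
  A.coprod (ContinuousLinearMap.toSpanSingleton ℝ w)

lemma blk_apply (A : EE d →L[ℝ] EE (d + 1)) (w : EE (d + 1)) (q : EE d × ℝ) :
    blk A w q = A q.1 + q.2 • w := by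
  simp [blk, ContinuousLinearMap.coprod_apply]

/-- determinant of the block map -/
noncomputable def dt (A : EE d →L[ℝ] EE (d + 1)) (w : EE (d + 1)) : ℝ :=
  ((blk A w).comp (cc d : EE (d + 1) →L[ℝ] (EE d × ℝ))).det

lemma dt_smul (A : EE d →L[ℝ] EE (d + 1)) (w : EE (d + 1)) (r : ℝ) :
    dt (r • A) w = dt A w * LinearMap.det
      ((((cc d).symm : (EE d × ℝ) →L[ℝ] EE (d + 1)).comp
        (((r • ContinuousLinearMap.id ℝ (EE d)).prodMap (ContinuousLinearMap.id ℝ ℝ)).comp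
          (cc d : EE (d + 1) →L[ℝ] (EE d × ℝ))) : EE (d + 1) →L[ℝ] EE (d + 1)) :
            EE (d + 1) →ₗ[ℝ] EE (d + 1)) := by
  unfold dt
  rw [ContinuousLinearMap.det, ContinuousLinearMap.det, ← LinearMap.det_comp]
  congr 1
  apply LinearMap.ext
  intro z
  show blk (r • A) w (cc d z) = blk A w (cc d ((cc d).symm (r • (cc d z).1, (cc d z).2)))
  rw [ContinuousLinearEquiv.apply_symm_apply, blk_apply, blk_apply]
  simp

/-- If the leading block is nondegenerate, the pencil degenerates for finitely many parameters. -/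
theorem finite_bad (A B : EE d →L[ℝ] EE (d + 1)) (w : EE (d + 1)) (h : dt B w ≠ 0) :
    {s : ℝ | dt (A + s • B) w = 0}.Finite := by
  classical
  by_contra hinf
  have hinf : {s : ℝ | dt (A + s • B) w = 0}.Infinite := hinf
  have h1 : ({s : ℝ | dt (A + s • B) w = 0} \ {0}).Infinite := hinf.sdiff (Set.finite_singleton 0)
  have h2 : ((fun s : ℝ => s⁻¹) '' ({s : ℝ | dt (A + s • B) w = 0} \ {0})).Infinite :=
    h1.image (inv_injective.injOn)
  obtain ⟨T, hT, hTc⟩ := h2.exists_subset_card_eq (finrank ℝ (EE (d + 1)) + 1)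
  apply h
  unfold dt
  refine Pool.Agent.W769.Cons.det_pencil _
    ((blk A 0).comp (cc d : EE (d + 1) →L[ℝ] (EE d × ℝ))) 0 T (by omega) ?_
  intro r hr
  obtain ⟨s, ⟨hs, hs0⟩, hsr⟩ := hT hr
  have hs0' : s ≠ 0 := hs0
  have hs' : dt (A + s • B) w = 0 := hs
  have h3 := dt_smul (A + s • B) w r
  rw [hs', zero_mul] at h3
  refine Eq.trans ?_ h3
  unfold dt
  congr 1
  ext z
  simp only [sub_zero, add_apply, ContinuousLinearMap.comp_apply, smul_apply, blk_apply,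
    smul_zero, add_zero, smul_add]
  have : r * s = 1 := by rw [← hsr]; exact inv_mul_cancel₀ hs0'
  rw [smul_smul, this, one_smul]
  abel_nf

variable {X ε : EE d → EE (d + 1)}

lemma hasF {y : EE d} (s : ℝ) (hX : DifferentiableAt ℝ X y) (hε : DifferentiableAt ℝ ε y) :
    HasFDerivAt (fun q : EE d × ℝ => X q.1 + q.2 • ε q.1)
      (blk (fderiv ℝ X y + s • fderiv ℝ ε y) (ε y)) (y, s) := by
  have h1 : HasFDerivAt (fun q : EE d × ℝ => X q.1)
      ((fderiv ℝ X y).comp (ContinuousLinearMap.fst ℝ (EE d) ℝ)) (y, s) :=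
    hX.hasFDerivAt.comp (y, s) hasFDerivAt_fst
  have h2 : HasFDerivAt (fun q : EE d × ℝ => ε q.1)
      ((fderiv ℝ ε y).comp (ContinuousLinearMap.fst ℝ (EE d) ℝ)) (y, s) :=
    hε.hasFDerivAt.comp (y, s) hasFDerivAt_fst
  have h3 : HasFDerivAt (fun q : EE d × ℝ => q.2) (ContinuousLinearMap.snd ℝ (EE d) ℝ) (y, s) :=
    hasFDerivAt_snd
  refine (h1.add (h3.smul h2)).congr_fderiv ?_
  apply ContinuousLinearMap.ext
  intro q
  rw [blk_apply]
  simp [smul_add, add_assoc]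

lemma hasF' {z : EE (d + 1)} (hX : DifferentiableAt ℝ X (cc d z).1)
    (hε : DifferentiableAt ℝ ε (cc d z).1) :
    HasFDerivAt (fun z : EE (d + 1) => X (cc d z).1 + (cc d z).2 • ε (cc d z).1)
      ((blk (fderiv ℝ X (cc d z).1 + (cc d z).2 • fderiv ℝ ε (cc d z).1) (ε (cc d z).1)).comp
        (cc d : EE (d + 1) →L[ℝ] (EE d × ℝ))) z := by
  have h := hasF (X := X) (ε := ε) (cc d z).2 hX hε
  have h2 : HasFDerivAt (cc d) (cc d : EE (d + 1) →L[ℝ] (EE d × ℝ)) z := (cc d).hasFDerivAt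
  exact HasFDerivAt.comp (g := fun q : EE d × ℝ => X q.1 + q.2 • ε q.1) z h h2

/-- good parameters -/
def Gd (X ε : EE d → EE (d + 1)) : Set (EE d) :=
  {y | DifferentiableAt ℝ X y ∧ DifferentiableAt ℝ ε y ∧ dt (fderiv ℝ ε y) (ε y) ≠ 0}

/-- If the set `D` of parameters meets the good ones in a null set, the directions are null. -/
theorem cone_null {L : ℝ≥0} {L' : ℝ≥0} (hX : LipschitzWith L X) (hε : LipschitzWith L' ε)
    (D : Set (EE d)) (h : volume (D ∩ Gd X ε) = 0) :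
    volume {w : EE (d + 1) | ∃ y ∈ D, ∃ r ∈ Ioo (0 : ℝ) 1, w = r • ε y} = 0 := by
  classical
  set g : EE (d + 1) → EE (d + 1) := fun z => (cc d z).2 • ε (cc d z).1 with hg
  set N : Set (EE d) := (D ∩ Gd X ε) ∪ {y | ¬ (DifferentiableAt ℝ X y ∧ DifferentiableAt ℝ ε y)}
    with hN
  have hN0 : volume N = 0 := by
    refine measure_union_null h ?_
    have h1 := hX.ae_differentiableAt (μ := volume)
    have h2 := hε.ae_differentiableAt (μ := volume)
    exact (h1.and h2 : ∀ᵐ y : EE d, DifferentiableAt ℝ X y ∧ DifferentiableAt ℝ ε y)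
  -- the null part
  have hpart1 : ∀ R : ℕ, volume (g '' (cc d ⁻¹' ((N ∩ closedBall 0 R) ×ˢ Icc (0 : ℝ) 1))) = 0 := by
    intro R
    -- g is Lipschitz there
    obtain ⟨M, hM⟩ : ∃ M : ℝ≥0, ∀ y ∈ closedBall (0 : EE d) R, ‖ε y‖ ≤ M := by
      obtain ⟨C, hC⟩ := ((isCompact_closedBall (0 : EE d) R).image hε.continuous).isBounded.exists_norm_le
      exact ⟨⟨max C 0, le_max_right _ _⟩, fun y hy => (hC _ ⟨y, hy, rfl⟩).trans (le_max_left _ _)⟩
    have hL : LipschitzOnWith (M + L') (fun q : EE d × ℝ => q.2 • ε q.1)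
        (closedBall (0 : EE d) R ×ˢ Icc (0 : ℝ) 1) := by
      refine LipschitzOnWith.of_dist_le_mul fun p hp q hq => ?_
      rw [dist_eq_norm]
      have e : p.2 • ε p.1 - q.2 • ε q.1 = (p.2 - q.2) • ε p.1 + q.2 • (ε p.1 - ε q.1) := by module
      rw [e]
      refine (norm_add_le _ _).trans ?_
      rw [norm_smul, norm_smul]
      have h1 : ‖p.2 - q.2‖ ≤ dist p q := by
        rw [← dist_eq_norm]; exact le_max_right _ _
      have h2 : ‖ε p.1 - ε q.1‖ ≤ L' * dist p q := by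
        rw [← dist_eq_norm]
        exact (hε.dist_le_mul _ _).trans (mul_le_mul_of_nonneg_left (le_max_left _ _) L'.2)
      have h3 : ‖q.2‖ ≤ 1 := by
        rw [Real.norm_eq_abs, abs_of_nonneg hq.2.1]; exact hq.2.2
      have h4 : ‖ε p.1‖ ≤ M := hM _ hp.1
      have hd : 0 ≤ dist p q := dist_nonneg
      calc ‖p.2 - q.2‖ * ‖ε p.1‖ + ‖q.2‖ * ‖ε p.1 - ε q.1‖
          ≤ dist p q * M + 1 * (L' * dist p q) := by gcongr
        _ = ((M + L' : ℝ≥0) : ℝ) * dist p q := by push_cast; ring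
    have hLg : LipschitzOnWith ((M + L') * ‖(cc d : EE (d + 1) →L[ℝ] (EE d × ℝ))‖₊) g
        (cc d ⁻¹' ((N ∩ closedBall 0 R) ×ˢ Icc (0 : ℝ) 1)) := by
      refine LipschitzOnWith.comp (g := fun q : EE d × ℝ => q.2 • ε q.1) (f := cc d)
        (t := closedBall (0 : EE d) R ×ˢ Icc (0 : ℝ) 1) hL (cc d).lipschitz.lipschitzOnWith ?_
      intro z hz
      exact ⟨hz.1.2, hz.2⟩
    refine null_lipschitz_image volume hLg ?_
    rw [null_iff]
    refine measure_mono_null (t := N ×ˢ (univ : Set ℝ)) ?_ ?_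
    · rintro ⟨q1, q2⟩ hq
      exact ⟨hq.1.1, trivial⟩
    rw [Measure.volume_eq_prod, Measure.prod_prod, hN0, zero_mul]
  -- the degenerate part
  set Z : Set (EE (d + 1)) := {z | (cc d z).1 ∈ D ∧ DifferentiableAt ℝ X (cc d z).1 ∧
    DifferentiableAt ℝ ε (cc d z).1 ∧ dt (fderiv ℝ ε (cc d z).1) (ε (cc d z).1) = 0} with hZ
  have hpart2 : volume (g '' Z) = 0 := by
    refine addHaar_image_eq_zero_of_det_fderivWithin_eq_zero volume
      (f' := fun z => (blk ((cc d z).2 • fderiv ℝ ε (cc d z).1) (ε (cc d z).1)).comp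
        (cc d : EE (d + 1) →L[ℝ] (EE d × ℝ))) ?_ ?_
    · intro z hz
      have h1 := hasF' (X := fun _ => 0) (ε := ε) (z := z) (differentiableAt_const _) hz.2.2.1
      simp only [fderiv_fun_const, Pi.zero_apply, zero_add] at h1
      exact h1.hasFDerivWithinAt
    · intro z hz
      have h1 := dt_smul (fderiv ℝ ε (cc d z).1) (ε (cc d z).1) (cc d z).2
      rw [hz.2.2.2, zero_mul] at h1
      exact h1
  refine measure_mono_null (t := (⋃ R : ℕ, g '' (cc d ⁻¹' ((N ∩ closedBall 0 R) ×ˢ Icc (0 : ℝ) 1))) ∪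
    g '' Z) ?_ (measure_union_null (measure_iUnion_null hpart1) hpart2)
  rintro w ⟨y, hy, r, hr, rfl⟩
  by_cases hyN : y ∈ N
  · left
    obtain ⟨R, hR⟩ := exists_nat_ge ‖y‖
    refine mem_iUnion.2 ⟨R, (cc d).symm (y, r), ?_, ?_⟩
    · show (cc d) ((cc d).symm (y, r)) ∈
        (((N ∩ closedBall 0 (R : ℝ)) ×ˢ Icc (0 : ℝ) 1 : Set (EE d × ℝ)))
      rw [ContinuousLinearEquiv.apply_symm_apply]
      exact ⟨⟨hyN, by simpa using hR⟩, ⟨hr.1.le, hr.2.le⟩⟩
    · simp [hg]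
  · right
    rw [hN, mem_union, not_or] at hyN
    have h1 : DifferentiableAt ℝ X y ∧ DifferentiableAt ℝ ε y := by
      by_contra hcon
      exact hyN.2 hcon
    refine ⟨(cc d).symm (y, r), ?_, by simp [hg]⟩
    show _ ∧ _ ∧ _ ∧ _
    rw [ContinuousLinearEquiv.apply_symm_apply]
    refine ⟨hy, h1.1, h1.2, ?_⟩
    by_contra hcon
    exact hyN.1 ⟨hy, h1.1, h1.2, hcon⟩

/-- the points of the parameter space that are mapped into `K` with nonzero Jacobian -/
def Bd (X ε : EE d → EE (d + 1)) (K : Set (EE (d + 1))) : Set (EE d × ℝ) :=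
  {q | q.1 ∈ Gd X ε ∧ X q.1 + q.2 • ε q.1 ∈ K ∧
    dt (fderiv ℝ X q.1 + q.2 • fderiv ℝ ε q.1) (ε q.1) ≠ 0}

theorem slices_vol {K : Set (EE (d + 1))} (hK : volume K = 0) :
    ∀ᵐ y : EE d, y ∈ Gd X ε → volume {s : ℝ | X y + s • ε y ∈ K} = 0 := by
  have h1 : volume (cc d ⁻¹' (Bd X ε K)) = 0 := by
    refine Pool.Agent.W769.Cons.null_of_null_image volume
      (f := fun z : EE (d + 1) => X (cc d z).1 + (cc d z).2 • ε (cc d z).1)
      (f' := fun z => (blk (fderiv ℝ X (cc d z).1 + (cc d z).2 • fderiv ℝ ε (cc d z).1)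
        (ε (cc d z).1)).comp (cc d : EE (d + 1) →L[ℝ] (EE d × ℝ))) ?_ ?_ ?_
    · intro z hz
      exact (hasF' hz.1.1 hz.1.2.1).hasFDerivWithinAt
    · refine measure_mono_null ?_ hK
      rintro _ ⟨z, hz, rfl⟩
      exact hz.2.1
    · intro z hz
      exact hz.2.2
  rw [null_iff] at h1
  have h2 : ∀ᵐ q ∂((volume : Measure (EE d)).prod (volume : Measure ℝ)), q ∉ Bd X ε K :=
    measure_eq_zero_iff_ae_notMem.1 h1
  have h3 := Measure.ae_ae_of_ae_prod h2
  filter_upwards [h3] with y hy hG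
  have h4 : volume {s : ℝ | (y, s) ∈ Bd X ε K} = 0 := by
    have : ∀ᵐ s : ℝ, (y, s) ∉ Bd X ε K := hy
    rw [ae_iff] at this
    simpa using this
  have h5 := (finite_bad (fderiv ℝ X y) (fderiv ℝ ε y) (ε y) hG.2.2).measure_zero volume
  refine measure_mono_null (t := {s : ℝ | (y, s) ∈ Bd X ε K} ∪
    {s : ℝ | dt (fderiv ℝ X y + s • fderiv ℝ ε y) (ε y) = 0}) ?_ (measure_union_null h4 h5)
  intro s hs
  by_cases h6 : dt (fderiv ℝ X y + s • fderiv ℝ ε y) (ε y) = 0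
  · exact Or.inr h6
  · exact Or.inl ⟨hG, hs, h6⟩

theorem slices_haus {K : Set (EE (d + 1))} {t : ℝ} (ht : 0 < t) (hK : μH[(d : ℝ) + t] K = 0) :
    ∀ᵐ y : EE d, y ∈ Gd X ε → μH[t] {s : ℝ | X y + s • ε y ∈ K} = 0 := by
  have hdt : 0 ≤ (d : ℝ) + t := by positivity
  have h1 : μH[(d : ℝ) + t] (cc d ⁻¹' (Bd X ε K)) = 0 := by
    refine haus_null_of_image hdt
      (f := fun z : EE (d + 1) => X (cc d z).1 + (cc d z).2 • ε (cc d z).1)
      (f' := fun z => (blk (fderiv ℝ X (cc d z).1 + (cc d z).2 • fderiv ℝ ε (cc d z).1)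
        (ε (cc d z).1)).comp (cc d : EE (d + 1) →L[ℝ] (EE d × ℝ))) ?_ ?_ ?_
    · intro z hz
      exact (hasF' hz.1.1 hz.1.2.1).hasFDerivWithinAt
    · refine measure_mono_null ?_ hK
      rintro _ ⟨z, hz, rfl⟩
      exact hz.2.1
    · intro z hz
      exact hz.2.2
  have h3 := slice_null ht (haus_null hdt _ h1)
  filter_upwards [h3] with y hy hG
  have h5 : μH[t] {s : ℝ | dt (fderiv ℝ X y + s • fderiv ℝ ε y) (ε y) = 0} = 0 := by
    have hf := finite_bad (fderiv ℝ X y) (fderiv ℝ ε y) (ε y) hG.2.2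
    have : NullSingletonClass (μH[t] : Measure ℝ) := Measure.nullSingletonClass_hausdorff ℝ ht
    exact hf.measure_zero _
  refine measure_mono_null (t := {s : ℝ | (y, s) ∈ Bd X ε K} ∪
    {s : ℝ | dt (fderiv ℝ X y + s • fderiv ℝ ε y) (ε y) = 0}) ?_ (measure_union_null hy h5)
  intro s hs
  by_cases h6 : dt (fderiv ℝ X y + s • fderiv ℝ ε y) (ε y) = 0
  · exact Or.inr h6
  · exact Or.inl ⟨hG, hs, h6⟩

end Q71.KR
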