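import Mathlib
import Pool.Agent.W769.Cons.Meas

set_option autoImplicit false

/-!
# Slices of sets of Hausdorff measure zero, and images under maps with nonzero Jacobian
-/

open MeasureTheory Set Metric Filter Topology Module
open scoped NNReal ENNReal

namespace Q71.KR

/-- If `A ⊆ ℝ^d × ℝ` has `H^(d+t)(A) = 0`, then almost every vertical slice is `H^t`-null. -/
theorem slice_null {d : ℕ} {t : ℝ} (ht : 0 < t)
    {A : Set (EuclideanSpace ℝ (Fin d) × ℝ)} (hA : μH[(d : ℝ) + t] A = 0) :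
    ∀ᵐ y : EuclideanSpace ℝ (Fin d), μH[t] {s : ℝ | (y, s) ∈ A} = 0 := by
  classical
  have hdt : 0 < (d : ℝ) + t := by positivity
  -- constant for the volume of balls
  obtain ⟨C, hC0, hC⟩ : ∃ C : ℝ≥0∞, C ≠ ∞ ∧ ∀ (y : EuclideanSpace ℝ (Fin d)) (r : ℝ), 0 ≤ r →
      volume (closedBall y r) ≤ C * ENNReal.ofReal r ^ (d : ℝ) := by
    refine ⟨volume (closedBall (0 : EuclideanSpace ℝ (Fin d)) 1), measure_closedBall_lt_top.ne,
      fun y r hr => ?_⟩
    rw [Measure.addHaar_closedBall volume y hr, Measure.addHaar_closedBall volume 0 zero_le_one]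
    simp only [finrank_euclideanSpace, Fintype.card_fin, one_pow, ENNReal.ofReal_one, one_mul]
    rw [ENNReal.ofReal_pow hr, ENNReal.rpow_natCast, mul_comm]
  -- coverings
  have hcov : ∀ k : ℕ, ∃ U : ℕ → Set (EuclideanSpace ℝ (Fin d) × ℝ), A ⊆ ⋃ i, U i ∧
      (∀ i, ediam (U i) ≤ ((k : ℝ≥0∞) + 1)⁻¹) ∧
      ∑' i, ediam (U i) ^ ((d : ℝ) + t) ≤ (2 : ℝ≥0∞)⁻¹ ^ k := by
    intro k
    rw [Measure.hausdorffMeasure_apply] at hA
    have h1 := (iSup₂_eq_bot (f := fun (r : ℝ≥0∞) (_ : 0 < r) =>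
      ⨅ (t' : ℕ → Set (EuclideanSpace ℝ (Fin d) × ℝ)) (_ : A ⊆ ⋃ n, t' n)
        (_ : ∀ n, ediam (t' n) ≤ r), ∑' n, ⨆ _ : (t' n).Nonempty, ediam (t' n) ^ ((d : ℝ) + t))).1
      hA (((k : ℝ≥0∞) + 1)⁻¹) (by
        rw [ENNReal.inv_pos]; exact ENNReal.add_ne_top.2 ⟨ENNReal.natCast_ne_top k, ENNReal.one_ne_top⟩)
    have h2 : (⨅ (t' : ℕ → Set (EuclideanSpace ℝ (Fin d) × ℝ)) (_ : A ⊆ ⋃ n, t' n)
        (_ : ∀ n, ediam (t' n) ≤ ((k : ℝ≥0∞) + 1)⁻¹),
          ∑' n, ⨆ _ : (t' n).Nonempty, ediam (t' n) ^ ((d : ℝ) + t)) < (2 : ℝ≥0∞)⁻¹ ^ k := by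
      rw [h1]
      exact ENNReal.pow_pos (by simp) k
    simp only [iInf_lt_iff] at h2
    obtain ⟨U, hU1, hU2, hU3⟩ := h2
    refine ⟨U, hU1, hU2, le_trans (ENNReal.tsum_le_tsum fun i => ?_) hU3.le⟩
    rcases (U i).eq_empty_or_nonempty with h | h
    · rw [h, ediam_empty, ENNReal.zero_rpow_of_pos hdt]
      exact bot_le
    · exact le_iSup_of_le h le_rfl
  choose U hU1 hU2 hU3 using hcov
  -- centres of projections
  have hctr : ∀ k i, ∃ y : EuclideanSpace ℝ (Fin d), ∀ q ∈ U k i,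
      q.1 ∈ closedBall y (ediam (U k i)).toReal := by
    intro k i
    rcases (U k i).eq_empty_or_nonempty with h | ⟨q, hq⟩
    · exact ⟨0, by rw [h]; simp⟩
    · refine ⟨q.1, fun q' hq' => ?_⟩
      have hfin : ediam (U k i) ≠ ∞ := ne_top_of_le_ne_top (by
        rw [ENNReal.inv_ne_top]
        exact (by positivity : (0 : ℝ≥0∞) < (k : ℝ≥0∞) + 1).ne') (hU2 k i)
      rw [mem_closedBall, dist_edist]
      refine ENNReal.toReal_mono hfin ?_
      exact le_trans (by rw [Prod.edist_eq]; exact le_max_left _ _) (edist_le_ediam_of_mem hq' hq)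
  choose y hy using hctr
  let g : ℕ → EuclideanSpace ℝ (Fin d) → ℝ≥0∞ := fun k z =>
    ∑' i, (closedBall (y k i) (ediam (U k i)).toReal).indicator
      (fun _ => ediam (U k i) ^ t) z
  have hgm : ∀ k, Measurable (g k) := fun k => Measurable.tsum fun i =>
    measurable_const.indicator isClosed_closedBall.measurableSet
  have hgint : ∀ k, ∫⁻ z, g k z ≤ C * (2 : ℝ≥0∞)⁻¹ ^ k := by
    intro k
    rw [lintegral_tsum fun i =>
      (measurable_const.indicator isClosed_closedBall.measurableSet).aemeasurable]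
    calc ∑' i, ∫⁻ z, (closedBall (y k i) (ediam (U k i)).toReal).indicator
          (fun _ => ediam (U k i) ^ t) z
        ≤ ∑' i, C * ediam (U k i) ^ ((d : ℝ) + t) := by
          refine ENNReal.tsum_le_tsum fun i => ?_
          rw [lintegral_indicator isClosed_closedBall.measurableSet, setLIntegral_const]
          have hfin : ediam (U k i) ≠ ∞ := ne_top_of_le_ne_top (by
            rw [ENNReal.inv_ne_top]
            exact (by positivity : (0 : ℝ≥0∞) < (k : ℝ≥0∞) + 1).ne') (hU2 k i)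
          calc ediam (U k i) ^ t * volume (closedBall (y k i) (ediam (U k i)).toReal)
              ≤ ediam (U k i) ^ t * (C * ediam (U k i) ^ (d : ℝ)) := by
                gcongr
                have := hC (y k i) (ediam (U k i)).toReal ENNReal.toReal_nonneg
                rwa [ENNReal.ofReal_toReal hfin] at this
            _ = C * ediam (U k i) ^ ((d : ℝ) + t) := by
                rw [ENNReal.rpow_add_of_nonneg _ _ (by positivity) ht.le]
                ring
      _ = C * ∑' i, ediam (U k i) ^ ((d : ℝ) + t) := ENNReal.tsum_mul_left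
      _ ≤ C * (2 : ℝ≥0∞)⁻¹ ^ k := by gcongr; exact hU3 k
  have hsum : ∫⁻ z, ∑' k, g k z ≠ ∞ := by
    rw [lintegral_tsum fun k => (hgm k).aemeasurable]
    refine ne_top_of_le_ne_top ?_ (ENNReal.tsum_le_tsum hgint)
    rw [ENNReal.tsum_mul_left, ENNReal.tsum_geometric]
    refine ENNReal.mul_ne_top hC0 ?_
    rw [ENNReal.inv_ne_top, ENNReal.one_sub_inv_two]
    simp
  have hae := ae_lt_top (Measurable.tsum hgm) hsum
  filter_upwards [hae] with z hz
  have hlim : Tendsto (fun k => g k z) atTop (𝓝 0) :=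
    ENNReal.tendsto_atTop_zero_of_tsum_ne_top hz.ne
  have hle := Measure.hausdorffMeasure_le_liminf_tsum (ι := fun _ : ℕ => ℕ) t {s : ℝ | (z, s) ∈ A}
    (l := atTop) (fun k : ℕ => ((k : ℝ≥0∞) + 1)⁻¹) (by
      have := ENNReal.tendsto_inv_nat_nhds_zero.comp (tendsto_add_atTop_nat 1)
      refine this.congr fun k => ?_
      simp)
    (fun k i => {s : ℝ | (z, s) ∈ U k i}) (Eventually.of_forall fun k i => by
      refine le_trans ?_ (hU2 k i)
      refine ediam_le fun a ha b hb => ?_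
      refine le_trans ?_ (edist_le_ediam_of_mem (show (z, a) ∈ U k i from ha) hb)
      rw [Prod.edist_eq]
      exact le_max_right _ _)
    (Eventually.of_forall fun k s hs => by
      obtain ⟨i, hi⟩ := mem_iUnion.1 (hU1 k hs)
      exact mem_iUnion.2 ⟨i, hi⟩)
  refine nonpos_iff_eq_zero.1 (hle.trans ?_)
  rw [← hlim.liminf_eq]
  refine liminf_le_liminf (Eventually.of_forall fun k => ?_)
  refine ENNReal.tsum_le_tsum fun i => ?_
  by_cases hne : {s : ℝ | (z, s) ∈ U k i}.Nonempty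
  · obtain ⟨s, hs⟩ := hne
    rw [indicator_of_mem (hy k i _ hs)]
    refine ENNReal.rpow_le_rpow ?_ ht.le
    refine ediam_le fun a ha b hb => ?_
    refine le_trans ?_ (edist_le_ediam_of_mem (show (z, a) ∈ U k i from ha) hb)
    rw [Prod.edist_eq]
    exact le_max_right _ _
  · rw [not_nonempty_iff_eq_empty.1 hne, ediam_empty, ENNReal.zero_rpow_of_pos ht]
    exact bot_le

end Q71.KR
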